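import Pool.Agent.Work.MP_c20ce7_dm.Main
import Pool.Agent.Work.MP_c20ce7_dm90.T6

set_option autoImplicit false

/-! Negative part, A: linear algebra of locally finite operators. -/

open MvPolynomial

noncomputable section

namespace Pool.DM

section fd

variable {L : Type} [AddCommGroup L] [Module ℂ L]

/-- A locally finite operator. -/
def LocFin (T : Module.End ℂ L) : Prop :=
  ∀ u : L, ∃ F : Submodule ℂ L, Module.Finite ℂ F ∧ u ∈ F ∧ ∀ v ∈ F, T v ∈ F

theorem LocFin.of_nil {T : Module.End ℂ L} (h : LocNil T) : LocFin T := by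
  intro u
  obtain ⟨k, hk⟩ := h u
  refine ⟨Submodule.span ℂ (Set.range fun i : Fin (k + 1) => (T ^ (i : ℕ)) u),
    Module.Finite.span_of_finite ℂ (Set.finite_range _), Submodule.subset_span ⟨0, by simp⟩, ?_⟩
  intro v hv
  induction hv using Submodule.span_induction with
  | mem x hx =>
    obtain ⟨i, rfl⟩ := hx
    by_cases hi : (i : ℕ) + 1 < k + 1
    · refine Submodule.subset_span ⟨⟨(i : ℕ) + 1, hi⟩, ?_⟩
      simp only [pow_succ']
      rfl
    · have hi' : (i : ℕ) = k := by omega
      have : T ((T ^ (i : ℕ)) u) = 0 := by rw [hi', hk, map_zero]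
      simp only
      rw [this]
      exact Submodule.zero_mem _
  | zero => rw [map_zero]; exact Submodule.zero_mem _
  | add x y _ _ hx hy => rw [map_add]; exact Submodule.add_mem _ hx hy
  | smul a x _ hx => rw [map_smul]; exact Submodule.smul_mem _ _ hx

theorem LocFin.of_diag {T : Module.End ℂ L}
    (h : ∀ u : L, u ∈ ⨆ n : ℤ, Module.End.eigenspace T (n : ℂ)) : LocFin T := by
  intro u
  refine Submodule.iSup_induction (fun n : ℤ => Module.End.eigenspace T (n : ℂ))
    (motive := fun u => ∃ F : Submodule ℂ L, Module.Finite ℂ F ∧ u ∈ F ∧ ∀ v ∈ F, T v ∈ F)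
    (h u) ?_ ?_ ?_
  · intro n v hv
    refine ⟨Submodule.span ℂ {v}, Module.Finite.span_of_finite ℂ (Set.finite_singleton _),
      Submodule.mem_span_singleton_self v, ?_⟩
    intro w hw
    obtain ⟨a, rfl⟩ := Submodule.mem_span_singleton.1 hw
    rw [map_smul, Module.End.mem_eigenspace_iff.1 hv]
    exact Submodule.smul_mem _ _ (Submodule.smul_mem _ _ (Submodule.mem_span_singleton_self v))
  · exact ⟨⊥, inferInstance, Submodule.zero_mem _, fun v hv => by
      rw [(Submodule.mem_bot ℂ).1 hv, map_zero]; exact Submodule.zero_mem _⟩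
  · rintro x y ⟨F, hF, hx, hs⟩ ⟨F', hF', hy, hs'⟩
    refine ⟨F ⊔ F', inferInstance, Submodule.add_mem_sup hx hy, ?_⟩
    intro v hv
    obtain ⟨a, ha, b, hb, rfl⟩ := Submodule.mem_sup.1 hv
    rw [map_add]
    exact Submodule.add_mem_sup (hs a ha) (hs' b hb)

theorem LocFin.fg {T : Module.End ℂ L} (h : LocFin T) (A : Submodule ℂ L) (hA : A.FG) :
    ∃ F : Submodule ℂ L, Module.Finite ℂ F ∧ A ≤ F ∧ ∀ v ∈ F, T v ∈ F := by
  refine Submodule.fg_induction (R := ℂ) (M := L)
    (motive := fun A _ => ∃ F : Submodule ℂ L, Module.Finite ℂ F ∧ A ≤ F ∧ ∀ v ∈ F, T v ∈ F) ?_ ?_ A hA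
  · intro x
    obtain ⟨F, hF, hx, hs⟩ := h x
    exact ⟨F, hF, (Submodule.span_singleton_le_iff_mem x F).2 hx, hs⟩
  · rintro M₁ M₂ _ _ ⟨F, hF, hx, hs⟩ ⟨F', hF', hy, hs'⟩
    refine ⟨F ⊔ F', inferInstance, sup_le_sup hx hy, ?_⟩
    intro v hv
    obtain ⟨a, ha, b, hb, rfl⟩ := Submodule.mem_sup.1 hv
    rw [map_add]
    exact Submodule.add_mem_sup (hs a ha) (hs' b hb)

variable {g : Type}

/-- The word applied to `w`. -/
def wordOp (T : g → Module.End ℂ L) (l : List g) : Module.End ℂ L := (l.map T).prod

theorem wordOp_cons (T : g → Module.End ℂ L) (a : g) (l : List g) (w : L) :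
    wordOp T (a :: l) w = T a (wordOp T l w) := by
  simp [wordOp]

/-- The span of the short words. -/
def shortW (T : g → Module.End ℂ L) (w : L) (n : ℕ) : Submodule ℂ L :=
  Submodule.span ℂ {v | ∃ l : List g, l.length < n ∧ wordOp T l w = v}

theorem shortW_cons (T : g → Module.End ℂ L) (w : L) (n : ℕ) (a : g) {v : L}
    (hv : v ∈ shortW T w n) : T a v ∈ shortW T w (n + 1) := by
  induction hv using Submodule.span_induction with
  | mem x hx =>
    obtain ⟨l, hl, rfl⟩ := hx
    exact Submodule.subset_span ⟨a :: l, by simpa using hl, wordOp_cons T a l w⟩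
  | zero => rw [map_zero]; exact Submodule.zero_mem _
  | add x y _ _ hx hy => rw [map_add]; exact Submodule.add_mem _ hx hy
  | smul c x _ hx => rw [map_smul]; exact Submodule.smul_mem _ _ hx

theorem perm_word (T : g → Module.End ℂ L)
    (hc : ∀ i j, T i * T j - T j * T i ∈ Submodule.span ℂ (Set.range T)) (w : L)
    {l l' : List g} (h : l.Perm l') : wordOp T l w - wordOp T l' w ∈ shortW T w l.length := by
  induction h with
  | nil => simp
  | cons a h ih =>
    rw [wordOp_cons, wordOp_cons, ← map_sub]
    exact shortW_cons T w _ a ih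
  | swap a b l =>
    rw [wordOp_cons, wordOp_cons, wordOp_cons, wordOp_cons]
    have e1 : T b (T a (wordOp T l w)) - T a (T b (wordOp T l w)) =
      (T b * T a - T a * T b) (wordOp T l w) := rfl
    rw [e1]
    have h1 := hc b a
    revert h1
    generalize T b * T a - T a * T b = S
    intro h1
    induction h1 using Submodule.span_induction with
    | mem x hx =>
      obtain ⟨k, rfl⟩ := hx
      exact Submodule.subset_span ⟨k :: l, by simp, wordOp_cons T k l w⟩
    | zero => simp
    | add x y _ _ hx hy => rw [LinearMap.add_apply]; exact Submodule.add_mem _ hx hy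
    | smul c x _ hx => rw [LinearMap.smul_apply]; exact Submodule.smul_mem _ _ hx
  | trans h1 h2 ih1 ih2 =>
    rw [← h1.length_eq] at ih2
    have := Submodule.add_mem _ ih1 ih2
    rwa [sub_add_sub_cancel] at this

/-- Finitely many locally finite operators which span a Lie algebra are jointly locally finite. -/
theorem exists_fd [Fintype g] [DecidableEq g] (T : g → Module.End ℂ L)
    (hc : ∀ i j, T i * T j - T j * T i ∈ Submodule.span ℂ (Set.range T))
    (hf : ∀ i, LocFin (T i)) (w : L) :
    ∃ M : Submodule ℂ L, Module.Finite ℂ M ∧ w ∈ M ∧ ∀ i, ∀ v ∈ M, T i v ∈ M := by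
  classical
  have key : ∀ G : List g, ∃ A : Submodule ℂ L, A.FG ∧
      ∀ a : g → ℕ, wordOp T (G.flatMap fun h => List.replicate (a h) h) w ∈ A := by
    intro G
    induction G with
    | nil =>
      exact ⟨Submodule.span ℂ {w}, Submodule.fg_span_singleton w, fun a => by
        simp [wordOp, Submodule.mem_span_singleton_self]⟩
    | cons b G ih =>
      obtain ⟨A, hA, hw⟩ := ih
      obtain ⟨F, hF, hAF, hs⟩ := (hf b).fg A hA
      refine ⟨F, Module.Finite.iff_fg.1 hF, fun a => ?_⟩
      rw [List.flatMap_cons]
      generalize a b = m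
      induction m with
      | zero => simpa using hAF (hw a)
      | succ m ih =>
        rw [List.replicate_succ, List.cons_append, wordOp_cons]
        exact hs _ ih
  obtain ⟨A, hA, hw⟩ := key Finset.univ.toList
  have all : ∀ n, ∀ l : List g, l.length < n → wordOp T l w ∈ A := by
    intro n
    induction n with
    | zero => intro l hl; omega
    | succ n ih =>
      intro l hl
      have hp : l.Perm (Finset.univ.toList.flatMap fun h => List.replicate (l.count h) h) := by
        rw [List.perm_iff_count]
        intro h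
        rw [List.count_flatMap]
        rw [show (List.map (List.count h ∘ fun h => List.replicate (List.count h l) h)
          Finset.univ.toList) = (Finset.univ.toList.map fun k => if k = h then l.count h else 0) from ?_]
        · rw [Finset.sum_map_toList]
          simp
        · refine List.map_congr_left fun k _ => ?_
          simp only [Function.comp_apply, List.count_replicate]
          by_cases hk : k = h
          · subst hk; simp
          · simp [hk]
      have h1 := perm_word T hc w hp
      have h2 : shortW T w l.length ≤ A := by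
        refine Submodule.span_le.2 ?_
        rintro _ ⟨l', hl', rfl⟩
        exact ih l' (by omega)
      have h3 := Submodule.add_mem _ (h2 h1) (hw fun h => l.count h)
      rwa [sub_add_cancel] at h3
  refine ⟨Submodule.span ℂ (Set.range fun l : List g => wordOp T l w), ?_, ?_, ?_⟩
  · have hle : Submodule.span ℂ (Set.range fun l : List g => wordOp T l w) ≤ A := by
      refine Submodule.span_le.2 ?_
      rintro _ ⟨l, rfl⟩
      exact all (l.length + 1) l (Nat.lt_succ_self _)
    haveI : Module.Finite ℂ A := Module.Finite.iff_fg.2 hA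
    exact Submodule.finiteDimensional_of_le hle
  · exact Submodule.subset_span ⟨[], by simp [wordOp]⟩
  · intro i v hv
    induction hv using Submodule.span_induction with
    | mem x hx =>
      obtain ⟨l, rfl⟩ := hx
      exact Submodule.subset_span ⟨i :: l, wordOp_cons T i l w⟩
    | zero => rw [map_zero]; exact Submodule.zero_mem _
    | add x y _ _ hx hy => rw [map_add]; exact Submodule.add_mem _ hx hy
    | smul c x _ hx => rw [map_smul]; exact Submodule.smul_mem _ _ hx

end fd

/-- `[D, N] = c N` with `c ≠ 0` implies that `N` is nilpotent. -/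
theorem nilp_of_comm {q : ℕ} (D N : Matrix (Fin q) (Fin q) ℂ) (c : ℂ) (hc : c ≠ 0)
    (h : D * N - N * D = c • N) : N ^ q = 0 := by
  classical
  have hk : ∀ k : ℕ, D * N ^ k - N ^ k * D = (k * c) • N ^ k := by
    intro k
    induction k with
    | zero => simp
    | succ k ih =>
      have e1 : D * N ^ (k + 1) - N ^ (k + 1) * D =
          (D * N ^ k - N ^ k * D) * N + N ^ k * (D * N - N * D) := by
        rw [pow_succ]; noncomm_ring
      rw [e1, ih, h, smul_mul_assoc, mul_smul_comm, ← pow_succ, ← add_smul]
      congr 1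
      push_cast
      ring
  -- the linear map ad D
  let ad : Module.End ℂ (Matrix (Fin q) (Fin q) ℂ) :=
    LinearMap.mulLeft ℂ D - LinearMap.mulRight ℂ D
  have hn : ∃ k : ℕ, N ^ k = 0 := by
    by_contra hcon
    push Not at hcon
    have hinf : Set.Infinite {μ : ℂ | Module.End.HasEigenvalue ad μ} := by
      refine Set.infinite_of_injective_forall_mem (f := fun k : ℕ => (k : ℂ) * c) ?_ ?_
      · intro a b hab
        exact Nat.cast_injective (mul_right_cancel₀ hc hab)
      · intro k
        refine Module.End.hasEigenvalue_of_hasEigenvector (x := N ^ k) ⟨?_, hcon k⟩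
        rw [Module.End.mem_eigenspace_iff]
        exact hk k
    exact hinf (Module.End.finite_hasEigenvalue ad)
  have hnil : IsNilpotent N := hn
  have hch : N.charpoly = Polynomial.X ^ q := by
    have := Matrix.isNilpotent_charpoly_sub_pow_of_isNilpotent hnil
    rw [Fintype.card_fin] at this
    exact sub_eq_zero.1 (IsNilpotent.eq_zero this)
  have := Matrix.aeval_self_charpoly N
  rwa [hch, map_pow, Polynomial.aeval_X] at this

end Pool.DM
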