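import Pool.Agent.Work.MP_c20ce7_neg.NA

set_option autoImplicit false

/-! Negative part, B: the vector fields of the group on functions, commutators. -/

open MvPolynomial

noncomputable section

namespace Pool.DM

variable {ι : Type} [Fintype ι] [DecidableEq ι] {R : Type} [Add R] [One R]

/-- The function `x_{ab}` (zero if `(a, b)` is not a coordinate). -/
def cx (e : ι → R) (a b : ι) : MvPolynomial (Co e) ℂ := by
  classical exact if h : e a = e b + 1 then X ⟨(a, b), h⟩ else 0

/-- The derivation with respect to `x_{ab}` (zero if `(a, b)` is not a coordinate). -/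
def pd (e : ι → R) (a b : ι) : Derivation ℂ (MvPolynomial (Co e) ℂ) (MvPolynomial (Co e) ℂ) := by
  classical exact if h : e a = e b + 1 then pderiv ⟨(a, b), h⟩ else 0

variable {e : ι → R} {L : Type} [AddCommGroup L] [Module ℂ L] [DecidableEq R]

theorem WMod.xo_eq (W : WMod (Co e) L) (a b : ι) : W.xo a b = W.x (cx e a b) := by
  unfold WMod.xo cx
  split
  · rfl
  · rw [map_zero]

theorem WMod.dO_x (W : WMod (Co e) L) (a b : ι) (f : MvPolynomial (Co e) ℂ) :
    W.dO a b * W.x f = W.x f * W.dO a b + W.x (pd e a b f) := by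
  unfold WMod.dO pd
  split
  · exact W.d_mul_x _ _
  · simp

theorem WMod.dO_comm (W : WMod (Co e) L) (a b c d : ι) :
    W.dO a b * W.dO c d = W.dO c d * W.dO a b := by
  unfold WMod.dO
  split
  · split
    · rw [← map_mul, mul_comm, map_mul]
    · simp
  · simp

theorem pd_cx (a b c d : ι) : pd e a b (cx e c d) =
    if a = c ∧ b = d ∧ e a = e b + 1 then 1 else 0 := by
  classical
  unfold pd cx
  by_cases h1 : e a = e b + 1
  · by_cases h2 : e c = e d + 1
    · rw [dif_pos h1, dif_pos h2, pderiv_X]
      by_cases h : a = c ∧ b = d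
      · obtain ⟨rfl, rfl⟩ := h
        simp [h1]
      · have : (⟨(c, d), h2⟩ : Co e) ≠ ⟨(a, b), h1⟩ := by
          intro h3
          simp only [Subtype.mk.injEq, Prod.mk.injEq] at h3
          exact h ⟨h3.1.symm, h3.2.symm⟩
        rw [Pi.single_eq_of_ne this, if_neg]
        rintro ⟨ha, hb, _⟩
        exact h ⟨ha, hb⟩
    · rw [dif_neg h2, map_zero, if_neg]
      rintro ⟨rfl, rfl, h⟩
      exact h2 h
  · rw [dif_neg h1, if_neg]
    · rfl
    · rintro ⟨_, _, h⟩
      exact h1 h

theorem pd_comm (a b c d : ι) (f : MvPolynomial (Co e) ℂ) :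
    pd e a b (pd e c d f) = pd e c d (pd e a b f) := by
  unfold pd
  split
  · split
    · exact pderiv_swap _ _ _
    · simp
  · simp

/-- The derivation of functions given by the vector field of `E_{ab}`. -/
def Gd (e : ι → R) (a b : ι) : Derivation ℂ (MvPolynomial (Co e) ℂ) (MvPolynomial (Co e) ℂ) :=
  ∑ c, cx e b c • pd e a c - ∑ c, cx e c a • pd e c b

omit [DecidableEq R] in
theorem deriv_sum_apply {σ τ : Type} (s : Finset τ)
    (D : τ → Derivation ℂ (MvPolynomial σ ℂ) (MvPolynomial σ ℂ)) (f : MvPolynomial σ ℂ) :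
    (∑ c ∈ s, D c) f = ∑ c ∈ s, D c f := by
  classical
  induction s using Finset.induction_on with
  | empty => simp
  | insert a s ha ih => rw [Finset.sum_insert ha, Finset.sum_insert ha, Derivation.add_apply, ih]

theorem Gd_apply (a b : ι) (f : MvPolynomial (Co e) ℂ) : Gd e a b f =
    ∑ c, cx e b c * pd e a c f - ∑ c, cx e c a * pd e c b f := by
  unfold Gd
  rw [Derivation.sub_apply, deriv_sum_apply, deriv_sum_apply]
  simp

theorem WMod.G_x (W : WMod (Co e) L) (a b : ι) (f : MvPolynomial (Co e) ℂ) :
    W.G a b * W.x f = W.x f * W.G a b + W.x (Gd e a b f) := by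
  have h1 : ∀ p q r s : ι, W.xo p q * W.dO r s * W.x f =
      W.x f * (W.xo p q * W.dO r s) + W.x (cx e p q * pd e r s f) := by
    intro p q r s
    rw [mul_assoc, W.dO_x, mul_add, W.xo_eq, ← mul_assoc, ← mul_assoc, ← map_mul, ← map_mul,
      ← map_mul, mul_comm (cx e p q) f]
  unfold WMod.G
  rw [sub_mul, Finset.sum_mul, Finset.sum_mul, Gd_apply, map_sub, map_sum, map_sum, mul_sub,
    Finset.mul_sum, Finset.mul_sum]
  simp only [h1, Finset.sum_add_distrib]
  abel

theorem Gd_cx {a b : ι} (hab : e a = e b) (c d : ι) : Gd e a b (cx e c d) =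
    (if a = c then cx e b d else 0) - (if b = d then cx e c a else 0) := by
  classical
  rw [Gd_apply]
  congr 1
  · by_cases h : a = c
    · subst h
      rw [if_pos rfl]
      by_cases h2 : e a = e d + 1
      · rw [Finset.sum_eq_single d]
        · rw [pd_cx, if_pos ⟨rfl, rfl, h2⟩, mul_one]
        · intro k _ hk
          rw [pd_cx, if_neg (fun h3 => hk h3.2.1), mul_zero]
        · intro h3; exact absurd (Finset.mem_univ _) h3
      · have h3 : ¬ e b = e d + 1 := by rw [← hab]; exact h2
        rw [Finset.sum_eq_zero]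
        · unfold cx; rw [dif_neg h3]
        · intro k _
          by_cases hk : k = d
          · subst hk
            rw [pd_cx, if_neg (fun h4 => h2 h4.2.2), mul_zero]
          · rw [pd_cx, if_neg (fun h4 => hk h4.2.1), mul_zero]
    · rw [if_neg h, Finset.sum_eq_zero]
      intro k _
      rw [pd_cx, if_neg (fun h3 => h h3.1), mul_zero]
  · by_cases h : b = d
    · subst h
      rw [if_pos rfl]
      by_cases h2 : e c = e b + 1
      · rw [Finset.sum_eq_single c]
        · rw [pd_cx, if_pos ⟨rfl, rfl, h2⟩, mul_one]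
        · intro k _ hk
          rw [pd_cx, if_neg (fun h3 => hk h3.1), mul_zero]
        · intro h3; exact absurd (Finset.mem_univ _) h3
      · have h3 : ¬ e c = e a + 1 := by rw [hab]; exact h2
        rw [Finset.sum_eq_zero]
        · unfold cx; rw [dif_neg h3]
        · intro k _
          by_cases hk : k = c
          · subst hk
            rw [pd_cx, if_neg (fun h4 => h2 h4.2.2), mul_zero]
          · rw [pd_cx, if_neg (fun h4 => hk h4.1), mul_zero]
    · rw [if_neg h, Finset.sum_eq_zero]
      intro k _
      rw [pd_cx, if_neg (fun h3 => h h3.2.1), mul_zero]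

theorem WMod.G_xo (W : WMod (Co e) L) {a b : ι} (hab : e a = e b) (c d : ι) :
    W.G a b * W.xo c d = W.xo c d * W.G a b +
      ((if a = c then W.xo b d else 0) - (if b = d then W.xo c a else 0)) := by
  rw [W.xo_eq, W.G_x, Gd_cx hab, map_sub]
  congr 1
  congr 1
  · split
    · rw [W.xo_eq]
    · rw [map_zero]
  · split
    · rw [W.xo_eq]
    · rw [map_zero]

theorem WMod.xo_dO (W : WMod (Co e) L) (a b c d : ι) :
    W.xo a b * W.dO c d = W.dO c d * W.xo a b -
      (if c = a ∧ d = b ∧ e c = e d + 1 then 1 else 0) := by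
  have h := W.dO_x c d (cx e a b)
  rw [pd_cx] at h
  rw [W.xo_eq, h]
  split
  · rw [map_one]; abel
  · rw [map_zero]; abel

theorem WMod.G_dO (W : WMod (Co e) L) {a b : ι} (hab : e a = e b) (c d : ι) :
    W.G a b * W.dO c d = W.dO c d * W.G a b -
      ((if b = c then W.dO a d else 0) - (if a = d then W.dO c b else 0)) := by
  classical
  have h1 : ∀ p q r s : ι, W.xo p q * W.dO r s * W.dO c d =
      W.dO c d * (W.xo p q * W.dO r s) -
        (if c = p ∧ d = q ∧ e c = e d + 1 then W.dO r s else 0) := by
    intro p q r s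
    rw [mul_assoc, W.dO_comm r s c d, ← mul_assoc, W.xo_dO, sub_mul, mul_assoc]
    congr 1
    split <;> simp
  unfold WMod.G
  rw [sub_mul, Finset.sum_mul, Finset.sum_mul, mul_sub, Finset.mul_sum, Finset.mul_sum]
  simp only [h1, Finset.sum_sub_distrib]
  have e1 : (∑ k, if c = b ∧ d = k ∧ e c = e d + 1 then W.dO a k else 0) =
      if b = c then W.dO a d else 0 := by
    by_cases h : b = c
    · subst h
      rw [if_pos rfl]
      by_cases h2 : e b = e d + 1
      · simp [h2]
      · have h3 : ¬ e a = e d + 1 := by rw [hab]; exact h2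
        simp [h2, WMod.dO, h3]
    · simp [h, Ne.symm h]
  have e2 : (∑ k, if c = k ∧ d = a ∧ e c = e d + 1 then W.dO k b else 0) =
      if a = d then W.dO c b else 0 := by
    by_cases h : a = d
    · subst h
      rw [if_pos rfl]
      by_cases h2 : e c = e a + 1
      · simp [h2]
      · have h3 : ¬ e c = e b + 1 := by rw [← hab]; exact h2
        simp [h2, WMod.dO, h3]
    · simp [h, Ne.symm h]
  rw [e1, e2]
  abel

theorem WMod.G_G (W : WMod (Co e) L) {a b c d : ι} (hab : e a = e b) :
    W.G a b * W.G c d - W.G c d * W.G a b =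
      (if a = d then W.G c b else 0) - (if b = c then W.G a d else 0) := by
  classical
  have h1 : ∀ p q r s : ι, W.G a b * (W.xo p q * W.dO r s) =
      (W.xo p q * W.dO r s) * W.G a b +
      (((if a = p then W.xo b q else 0) - (if b = q then W.xo p a else 0)) * W.dO r s -
      W.xo p q * ((if b = r then W.dO a s else 0) - (if a = s then W.dO r b else 0))) := by
    intro p q r s
    rw [← mul_assoc, W.G_xo hab, add_mul, mul_assoc, W.G_dO hab, mul_sub]
    simp only [mul_assoc]
    abel
  have h2 : W.G a b * W.G c d - W.G c d * W.G a b =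
      ∑ k, (((if a = d then W.xo b k else 0) - (if b = k then W.xo d a else 0)) * W.dO c k -
      W.xo d k * ((if b = c then W.dO a k else 0) - (if a = k then W.dO c b else 0))) -
      ∑ k, (((if a = k then W.xo b c else 0) - (if b = c then W.xo k a else 0)) * W.dO k d -
      W.xo k c * ((if b = k then W.dO a d else 0) - (if a = d then W.dO k b else 0))) := by
    rw [show W.G c d = ∑ k, W.xo d k * W.dO c k - ∑ k, W.xo k c * W.dO k d from rfl,
      mul_sub, Finset.mul_sum, Finset.mul_sum]
    simp only [h1, Finset.sum_add_distrib]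
    rw [sub_mul, Finset.sum_mul, Finset.sum_mul]
    abel
  rw [h2]
  simp only [Finset.sum_sub_distrib, sub_mul, mul_sub, ite_mul, zero_mul, mul_ite, mul_zero,
    Finset.sum_ite_eq, Finset.mem_univ, if_true]
  have h3 : (∑ x, if a = d then W.xo b x * W.dO c x else 0) =
      if a = d then ∑ x, W.xo b x * W.dO c x else 0 := by split <;> simp
  have h4 : (∑ x, if b = c then W.xo d x * W.dO a x else 0) =
      if b = c then ∑ x, W.xo d x * W.dO a x else 0 := by split <;> simp
  have h5 : (∑ x, if b = c then W.xo x a * W.dO x d else 0) =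
      if b = c then ∑ x, W.xo x a * W.dO x d else 0 := by split <;> simp
  have h6 : (∑ x, if a = d then W.xo x c * W.dO x b else 0) =
      if a = d then ∑ x, W.xo x c * W.dO x b else 0 := by split <;> simp
  rw [h3, h4, h5, h6]
  unfold WMod.G
  by_cases h7 : a = d <;> by_cases h8 : b = c
  · simp only [h7, h8, if_true]; abel
  · simp only [h7, h8, if_true, if_false]; abel
  · simp only [h7, h8, if_true, if_false]; abel
  · simp only [h7, h8, if_false]; abel

end Pool.DM
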