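import Pool.Agent.Work.MP_c20ce7_neg.NB

set_option autoImplicit false

/-! Negative part, C: vectors killed by the ideal of the support. -/

open MvPolynomial

noncomputable section

namespace Pool.DM

/-- Vectors of a stable family killed by functions: the annihilator is a differential ideal. -/
theorem diff_ideal_pow {A : Type} [CommRing A] [Algebra ℂ A] (δ : Derivation ℂ A A) (P : A → Prop)
    (hadd : ∀ f g, P f → P g → P (f + g)) (hmul : ∀ f g, P f → P (g * f)) (hδ : ∀ f, P f → P (δ f))
    {f : A} {k : ℕ} (hk : 1 ≤ k) (h : P (f ^ k)) : P ((δ f) ^ (2 * k - 1)) := by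
  have key : ∀ j, 1 ≤ j → j ≤ k → P (f ^ (k - j) * (δ f) ^ (2 * j - 1)) := by
    intro j
    induction j with
    | zero => intro h; omega
    | succ j ih =>
      intro _ hjk
      rcases Nat.eq_zero_or_pos j with rfl | hj
      · have h1 := hδ _ h
        rw [Derivation.leibniz_pow, nsmul_eq_mul, smul_eq_mul] at h1
        have h2 := hmul _ (algebraMap ℂ A ((k : ℂ)⁻¹)) h1
        have hk0 : (k : ℂ) ≠ 0 := Nat.cast_ne_zero.2 (by omega)
        have e1 : algebraMap ℂ A ((k : ℂ)⁻¹) * ((k : A) * (f ^ (k - 1) * δ f)) =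
            f ^ (k - (0 + 1)) * δ f ^ (2 * (0 + 1) - 1) := by
          have : algebraMap ℂ A ((k : ℂ)⁻¹) * (k : A) = 1 := by
            rw [← map_natCast (algebraMap ℂ A) k, ← map_mul, inv_mul_cancel₀ hk0, map_one]
          rw [← mul_assoc, this, one_mul]
          simp
        rwa [e1] at h2
      · have h1 := ih hj (by omega)
        obtain ⟨m, hm⟩ : ∃ m, k - j = m + 1 := ⟨k - j - 1, by omega⟩
        obtain ⟨n, hn⟩ : ∃ n, 2 * j - 1 = n + 1 := ⟨2 * j - 2, by omega⟩
        have h2 := hmul _ (δ f) (hδ _ h1)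
        have e1 : k - (j + 1) = m := by omega
        have e2 : 2 * (j + 1) - 1 = n + 3 := by omega
        rw [hm, hn] at h2 h1
        rw [e1, e2]
        rw [Derivation.leibniz, Derivation.leibniz_pow, Derivation.leibniz_pow] at h2
        simp only [nsmul_eq_mul, smul_eq_mul, Nat.add_sub_cancel] at h2
        have h3 := hmul _ (-(((n + 1 : ℕ) : A) * δ (δ f))) h1
        have h4 := hadd _ _ h2 h3
        have hm0 : (((m + 1 : ℕ) : ℂ)) ≠ 0 := Nat.cast_ne_zero.2 (by omega)
        have h5 := hmul _ (algebraMap ℂ A (((m + 1 : ℕ) : ℂ)⁻¹)) h4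
        have e3 : algebraMap ℂ A (((m + 1 : ℕ) : ℂ)⁻¹) * (((m + 1 : ℕ) : A)) = 1 := by
          rw [← map_natCast (algebraMap ℂ A) (m + 1), ← map_mul, inv_mul_cancel₀ hm0, map_one]
        have e4 : f ^ m * δ f ^ (n + 3) =
            algebraMap ℂ A (((m + 1 : ℕ) : ℂ)⁻¹) *
            (δ f * (f ^ (m + 1) * (((n + 1 : ℕ) : A) * (δ f ^ n * δ (δ f))) +
              δ f ^ (n + 1) * (((m + 1 : ℕ) : A) * (f ^ m * δ f))) +
            -(((n + 1 : ℕ) : A) * δ (δ f)) * (f ^ (m + 1) * δ f ^ (n + 1))) := by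
          have e5 : (δ f * (f ^ (m + 1) * (((n + 1 : ℕ) : A) * (δ f ^ n * δ (δ f))) +
              δ f ^ (n + 1) * (((m + 1 : ℕ) : A) * (f ^ m * δ f))) +
            -(((n + 1 : ℕ) : A) * δ (δ f)) * (f ^ (m + 1) * δ f ^ (n + 1))) =
            ((m + 1 : ℕ) : A) * (f ^ m * δ f ^ (n + 3)) := by ring
          rw [e5, ← mul_assoc, e3, one_mul]
        rw [e4]
        exact h5
  have := key k hk le_rfl
  rwa [Nat.sub_self, pow_zero, one_mul] at this

section

variable {σ : Type} [Fintype σ] [DecidableEq σ] {L : Type} [AddCommGroup L] [Module ℂ L]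

theorem locNil_pow (W : WMod σ L) (f : MvPolynomial σ ℂ) :
    LocNil (W.x f) ↔ ∀ u, ∃ k : ℕ, W.x (f ^ k) u = 0 := by
  unfold LocNil
  simp only [map_pow]

theorem pow_ge_zero (W : WMod σ L) {f : MvPolynomial σ ℂ} {u : L} {k l : ℕ}
    (h : W.x (f ^ k) u = 0) (hkl : k ≤ l) : W.x (f ^ l) u = 0 := by
  obtain ⟨m, rfl⟩ := Nat.exists_eq_add_of_le hkl
  rw [pow_add, mul_comm, map_mul, Module.End.mul_apply, h, map_zero]

/-- A locally finite operator `T` with `[T, f] = δ f` on functions preserves local nilpotency. -/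
theorem locNil_deriv (W : WMod σ L) (T : Module.End ℂ L)
    (δ : Derivation ℂ (MvPolynomial σ ℂ) (MvPolynomial σ ℂ)) (hT : LocFin T)
    (hc : ∀ f, T * W.x f = W.x f * T + W.x (δ f)) {f : MvPolynomial σ ℂ}
    (hf : LocNil (W.x f)) : LocNil (W.x (δ f)) := by
  rw [locNil_pow] at hf ⊢
  intro u
  obtain ⟨F, hF, hu, hs⟩ := hT u
  have hFG : F.FG := Module.Finite.iff_fg.1 hF
  obtain ⟨S, hS⟩ := hFG
  -- a uniform power kills F
  have h1 : ∃ k, 1 ≤ k ∧ ∀ v ∈ F, W.x (f ^ k) v = 0 := by
    choose n hn using hf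
    refine ⟨∑ s ∈ S, n s + 1, by omega, ?_⟩
    intro v hv
    rw [← hS] at hv
    induction hv using Submodule.span_induction with
    | mem x hx =>
      refine pow_ge_zero W (hn x) ?_
      have := Finset.single_le_sum (f := n) (fun i _ => Nat.zero_le _) hx
      omega
    | zero => exact map_zero _
    | add x y _ _ hx hy => rw [map_add, hx, hy, add_zero]
    | smul a x _ hx => rw [map_smul, hx, smul_zero]
  obtain ⟨k, hk, hkF⟩ := h1
  refine ⟨2 * k - 1, ?_⟩
  refine diff_ideal_pow δ (fun g => ∀ v ∈ F, W.x g v = 0) ?_ ?_ ?_ hk hkF u hu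
  · intro f g h h' v hv
    rw [map_add, LinearMap.add_apply, h v hv, h' v hv, add_zero]
  · intro f g h v hv
    rw [map_mul, Module.End.mul_apply, h v hv, map_zero]
  · intro g h v hv
    have h2 := LinearMap.congr_fun (hc g) v
    rw [LinearMap.add_apply, Module.End.mul_apply, Module.End.mul_apply, h v hv, map_zero,
      h (T v) (hs v hv), zero_add] at h2
    exact h2.symm

/-- The vectors which are killed by all functions vanishing on `C`. -/
def WMod.killed (W : WMod σ L) (C : Set (σ → ℂ)) : Submodule ℂ L where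
  carrier := {u | ∀ f : MvPolynomial σ ℂ, (∀ x ∈ C, eval x f = 0) → W.x f u = 0}
  zero_mem' := fun f _ => map_zero _
  add_mem' := fun {u v} hu hv f hf => by rw [map_add, hu f hf, hv f hf, add_zero]
  smul_mem' := fun c u hu f hf => by rw [map_smul, hu f hf, smul_zero]

theorem exists_killed (W : WMod σ L) (C : Set (σ → ℂ)) (hC : W.SuppEq C) {u : L} (hu : u ≠ 0) :
    ∃ w ∈ W.killed C, w ≠ 0 := by
  classical
  let I : Ideal (MvPolynomial σ ℂ) :=
    { carrier := {f | ∀ x ∈ C, eval x f = 0}
      zero_mem' := fun x _ => map_zero _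
      add_mem' := fun {f g} hf hg x hx => by rw [map_add, hf x hx, hg x hx, add_zero]
      smul_mem' := fun c f hf x hx => by rw [smul_eq_mul, map_mul, hf x hx, mul_zero] }
  obtain ⟨S, hS⟩ := (isNoetherianRing_iff_ideal_fg _).1 (inferInstance : IsNoetherianRing
    (MvPolynomial σ ℂ)) I
  have key : ∀ T : Finset (MvPolynomial σ ℂ), (∀ f ∈ T, LocNil (W.x f)) →
      ∃ g : MvPolynomial σ ℂ, W.x g u ≠ 0 ∧ ∀ f ∈ T, W.x f (W.x g u) = 0 := by
    intro T
    induction T using Finset.induction_on with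
    | empty => intro _; exact ⟨1, by rw [map_one]; exact hu, fun f hf => absurd hf (Finset.notMem_empty f)⟩
    | insert a T ha ih =>
      intro hT
      obtain ⟨g, hg, hT'⟩ := ih fun f hf => hT f (Finset.mem_insert_of_mem hf)
      have h1 := (locNil_pow W a).1 (hT a (Finset.mem_insert_self a T)) (W.x g u)
      have h2 : Nat.find h1 ≠ 0 := by
        intro h3
        have := Nat.find_spec h1
        rw [h3, pow_zero, map_one] at this
        exact hg this
      obtain ⟨m, hm⟩ := Nat.exists_eq_succ_of_ne_zero h2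
      have h4 : W.x (a ^ m) (W.x g u) ≠ 0 := Nat.find_min h1 (by omega)
      have h5 : W.x (a ^ (m + 1)) (W.x g u) = 0 := by
        have := Nat.find_spec h1
        rwa [hm] at this
      refine ⟨a ^ m * g, by rw [map_mul, Module.End.mul_apply]; exact h4, ?_⟩
      intro f hf
      rw [map_mul, Module.End.mul_apply]
      rcases Finset.mem_insert.1 hf with rfl | hf
      · rw [← Module.End.mul_apply, ← map_mul, ← pow_succ']
        exact h5
      · rw [← Module.End.mul_apply, ← map_mul, mul_comm, map_mul, Module.End.mul_apply, hT' f hf,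
          map_zero]
  obtain ⟨g, hg, hg'⟩ := key S fun f hf => (hC f).1 (by
    have : f ∈ I := by rw [← hS]; exact Ideal.subset_span hf
    exact this)
  refine ⟨W.x g u, ?_, hg⟩
  intro f hf
  have hfI : f ∈ I := hf
  clear hf
  rw [← hS] at hfI
  induction hfI using Submodule.span_induction with
  | mem x hx => exact hg' x hx
  | zero => rw [map_zero]; rfl
  | add x y _ _ hx hy => rw [map_add, LinearMap.add_apply, hx, hy, add_zero]
  | smul a x _ hx => rw [smul_eq_mul, map_mul, Module.End.mul_apply, hx, map_zero]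

/-- If `[T, x_i]` and `[T, d_i]` commute with `T`, the vectors killed by powers of `T` form a stable
subspace. -/
theorem nil_stable (W : WMod σ L) (T : Module.End ℂ L)
    (hx : ∀ i, ∃ A : Module.End ℂ L, T * W.x (X i) = W.x (X i) * T + A ∧ T * A = A * T)
    (hd : ∀ i, ∃ A : Module.End ℂ L, T * W.d (X i) = W.d (X i) * T + A ∧ T * A = A * T)
    (hS : W.Simple) {u : L} (hu : u ≠ 0) {k : ℕ} (hk : (T ^ k) u = 0) : LocNil T := by
  have gen : ∀ (Y A : Module.End ℂ L), T * Y = Y * T + A → T * A = A * T →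
      ∀ n : ℕ, T ^ (n + 1) * Y = Y * T ^ (n + 1) + (n + 1 : ℕ) • (A * T ^ n) := by
    intro Y A h1 h2 n
    induction n with
    | zero => simp [h1]
    | succ n ih =>
      have h3 : T * (A * T ^ n) = A * T ^ (n + 1) := by
        rw [← mul_assoc, h2, mul_assoc, ← pow_succ']
      rw [pow_succ' T (n + 1), mul_assoc, ih, mul_add, ← mul_assoc, h1, mul_smul_comm, h3, add_mul,
        mul_assoc, add_assoc, ← pow_succ' T (n + 1)]
      congr 1
      rw [succ_nsmul (A * T ^ (n + 1)) (n + 1), add_comm]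
  let N : Submodule ℂ L :=
    { carrier := {v | ∃ k : ℕ, (T ^ k) v = 0}
      zero_mem' := ⟨0, map_zero _⟩
      add_mem' := by
        rintro v w ⟨k, hk⟩ ⟨l, hl⟩
        refine ⟨k + l, ?_⟩
        have e1 : (T ^ (k + l)) v = 0 := by
          rw [add_comm, pow_add, Module.End.mul_apply, hk, map_zero]
        have e2 : (T ^ (k + l)) w = 0 := by
          rw [pow_add, Module.End.mul_apply, hl, map_zero]
        rw [map_add, e1, e2, add_zero]
      smul_mem' := by
        rintro c v ⟨k, hk⟩
        exact ⟨k, by rw [map_smul, hk, smul_zero]⟩ }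
  have hst : W.Stable N := by
    rintro v ⟨k, hk⟩
    have h0 : ∀ Y A : Module.End ℂ L, T * Y = Y * T + A → T * A = A * T → Y v ∈ N := by
      intro Y A h1 h2
      refine ⟨k + 1, ?_⟩
      have h3 := LinearMap.congr_fun (gen Y A h1 h2 k) v
      rw [Module.End.mul_apply, LinearMap.add_apply, Module.End.mul_apply, LinearMap.smul_apply,
        Module.End.mul_apply, hk, map_zero, smul_zero, add_zero, pow_succ', Module.End.mul_apply,
        Module.End.mul_apply, hk, map_zero, map_zero] at h3
      rw [pow_succ', Module.End.mul_apply]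
      exact h3
    refine ⟨fun i => ?_, fun i => ?_⟩
    · obtain ⟨A, h1, h2⟩ := hx i
      exact h0 _ A h1 h2
    · obtain ⟨A, h1, h2⟩ := hd i
      exact h0 _ A h1 h2
  rcases hS.2.2 N hst le_top with h | h
  · exact absurd ((Submodule.mem_bot ℂ).1 (h ▸ (⟨k, hk⟩ : u ∈ N))) hu
  · intro v
    have : v ∈ N := by rw [h]; trivial
    exact this

end

end Pool.DM
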