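import Pool.Agent.Work.MP_c20ce7_neg.NC

set_option autoImplicit false

/-! Negative part, D: the functions `phi`, `hh`, the determinant `dt` and the operator `Theta`. -/

open MvPolynomial

noncomputable section

namespace Pool.DM

variable {ι : Type} [Fintype ι] [DecidableEq ι] {R : Type} [Add R] [One R] [DecidableEq R]
  (e : ι → R) {r : ℕ} (ρ : Fin (r + 1) → ι) (κ : Fin r → ι)

/-- The cofactor of the row `k` in the columns `κ`. -/
def cofK (k : Fin (r + 1)) : MvPolynomial (Co e) ℂ :=
  (-1) ^ (k : ℕ) * (Matrix.of fun i j : Fin r => cx e (ρ (k.succAbove i)) (κ j)).det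

/-- The row vector which vanishes on the columns `κ` of `x_in`. -/
def phi (a : ι) : MvPolynomial (Co e) ℂ := ∑ k, if ρ k = a then cofK e ρ κ k else 0

/-- The matrix with the first column `v` and the other columns `κ`. -/
def minM {A : Type} (v : ι → A) (x : ι → ι → A) : Matrix (Fin (r + 1)) (Fin (r + 1)) A :=
  Matrix.of fun k => Fin.cons (v (ρ k)) fun j => x (ρ k) (κ j)

theorem det_minM {A : Type} [CommRing A] (v : ι → A) (x : ι → ι → A) :
    (minM ρ κ v x).det = ∑ k : Fin (r + 1), v (ρ k) *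
      ((-1) ^ (k : ℕ) * (Matrix.of fun i j : Fin r => x (ρ (k.succAbove i)) (κ j)).det) := by
  rw [Matrix.det_succ_column_zero]
  refine Finset.sum_congr rfl fun k _ => ?_
  have h1 : minM ρ κ v x k 0 = v (ρ k) := rfl
  have h2 : (minM ρ κ v x).submatrix k.succAbove Fin.succ =
      Matrix.of fun i j : Fin r => x (ρ (k.succAbove i)) (κ j) := by
    ext i j
    rfl
  rw [h1, h2]
  ring

theorem sum_phi (v : ι → MvPolynomial (Co e) ℂ) :
    ∑ a, v a * phi e ρ κ a = (minM ρ κ v (cx e)).det := by
  rw [det_minM]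
  unfold phi
  simp only [Finset.mul_sum, mul_ite, mul_zero]
  rw [Finset.sum_comm]
  refine Finset.sum_congr rfl fun k _ => ?_
  rw [Finset.sum_ite_eq, if_pos (Finset.mem_univ _)]
  rfl

theorem ker_det {A : Type} [CommRing A] [Algebra ℂ A] (D : Derivation ℂ A A) {n : Type} [Fintype n]
    [DecidableEq n] (M : Matrix n n A) (h : ∀ i j, D (M i j) = 0) : D M.det = 0 := by
  let K : Subalgebra ℂ A :=
    { carrier := {a | D a = 0}
      mul_mem' := fun {a b} ha hb => by
        change D (a * b) = 0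
        rw [Derivation.leibniz, show D a = 0 from ha, show D b = 0 from hb, smul_zero, smul_zero,
          add_zero]
      add_mem' := fun {a b} ha hb => by
        change D (a + b) = 0
        rw [map_add, show D a = 0 from ha, show D b = 0 from hb, add_zero]
      algebraMap_mem' := fun c => D.map_algebraMap c }
  have hM : M.det ∈ K := by
    rw [Matrix.det_apply]
    refine Subalgebra.sum_mem _ fun s _ => ?_
    have h1 : ∏ i, M (s i) i ∈ K := Subalgebra.prod_mem _ fun i _ => h _ _
    rcases Int.units_eq_one_or (Equiv.Perm.sign s) with h2 | h2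
    · rw [h2, one_smul]; exact h1
    · rw [h2, Units.neg_smul, one_smul]; exact Subalgebra.neg_mem _ h1
  exact hM

/-- `pd a b` kills `phi` if `a` is no row or `b` no column. -/
theorem pd_phi (a b c : ι) (h : (∀ k, ρ k ≠ a) ∨ ∀ j, κ j ≠ b) : pd e a b (phi e ρ κ c) = 0 := by
  unfold phi
  rw [map_sum]
  refine Finset.sum_eq_zero fun k _ => ?_
  split
  · unfold cofK
    have h1 : pd e a b (Matrix.of fun i j : Fin r => cx e (ρ (k.succAbove i)) (κ j)).det = 0 := by
      refine ker_det _ _ fun i j => ?_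
      rw [Matrix.of_apply, pd_cx, if_neg]
      rintro ⟨h1, h2, _⟩
      rcases h with h | h
      · exact h _ h1.symm
      · exact h _ h2.symm
    have h2 : pd e a b ((-1 : MvPolynomial (Co e) ℂ) ^ (k : ℕ)) = 0 := by
      rcases neg_one_pow_eq_or (MvPolynomial (Co e) ℂ) (k : ℕ) with h3 | h3
      · rw [h3]; exact Derivation.map_one_eq_zero _
      · rw [h3, map_neg, Derivation.map_one_eq_zero, neg_zero]
    rw [Derivation.leibniz, h1, h2, smul_zero, smul_zero, add_zero]
  · exact map_zero _

variable (b0 : ι)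

/-- The derivation of functions given by `Theta`. -/
def th : Derivation ℂ (MvPolynomial (Co e) ℂ) (MvPolynomial (Co e) ℂ) :=
  ∑ a, phi e ρ κ a • pd e b0 a

theorem th_apply (f : MvPolynomial (Co e) ℂ) :
    th e ρ κ b0 f = ∑ a, phi e ρ κ a * pd e b0 a f := by
  unfold th
  rw [deriv_sum_apply]
  simp

variable {L : Type} [AddCommGroup L] [Module ℂ L]

/-- The first order operator `Theta`, an `(r+1)`-minor of `(x_in | y)`. -/
def Theta (W : WMod (Co e) L) : Module.End ℂ L := ∑ a, W.x (phi e ρ κ a) * W.dO b0 a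

theorem Theta_x (W : WMod (Co e) L) (f : MvPolynomial (Co e) ℂ) :
    Theta e ρ κ b0 W * W.x f = W.x f * Theta e ρ κ b0 W + W.x (th e ρ κ b0 f) := by
  unfold Theta
  rw [Finset.sum_mul, Finset.mul_sum, th_apply, map_sum, ← Finset.sum_add_distrib]
  refine Finset.sum_congr rfl fun a _ => ?_
  rw [mul_assoc, W.dO_x, mul_add, ← mul_assoc, ← mul_assoc, ← map_mul, ← map_mul, ← map_mul,
    mul_comm (phi e ρ κ a) f]

variable (hb0 : ∀ k, ρ k ≠ b0)

include hb0

theorem th_phi (a : ι) : th e ρ κ b0 (phi e ρ κ a) = 0 := by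
  rw [th_apply]
  refine Finset.sum_eq_zero fun c _ => ?_
  rw [pd_phi e ρ κ b0 c a (Or.inl hb0), mul_zero]

theorem Theta_comm_phi (W : WMod (Co e) L) (a : ι) :
    Theta e ρ κ b0 W * W.x (phi e ρ κ a) = W.x (phi e ρ κ a) * Theta e ρ κ b0 W := by
  rw [Theta_x, th_phi e ρ κ b0 hb0, map_zero, add_zero]

omit [DecidableEq R] hb0 in
theorem WMod.dO_d (W : WMod (Co e) L) (a b : ι) (i : Co e) :
    W.dO a b * W.d (X i) = W.d (X i) * W.dO a b := by
  unfold WMod.dO
  split
  · rw [← map_mul, mul_comm, map_mul]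
  · simp

theorem Theta_nil_of_one (W : WMod (Co e) L) (hS : W.Simple) {u : L} (hu : u ≠ 0) {k : ℕ}
    (hk : (Theta e ρ κ b0 W ^ k) u = 0) : LocNil (Theta e ρ κ b0 W) := by
  refine nil_stable W _ ?_ ?_ hS hu hk
  · intro i
    refine ⟨W.x (th e ρ κ b0 (X i)), Theta_x e ρ κ b0 W _, ?_⟩
    have h0 : th e ρ κ b0 (th e ρ κ b0 (X i)) = 0 := by
      rw [th_apply e ρ κ b0 (X i), map_sum]
      refine Finset.sum_eq_zero fun a _ => ?_
      have h1 : th e ρ κ b0 (pd e b0 a (X i)) = 0 := by
        have h2 : (X i : MvPolynomial (Co e) ℂ) = cx e i.1.1 i.1.2 := by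
          unfold cx
          rw [dif_pos i.2]
        rw [h2, pd_cx]
        split
        · exact Derivation.map_one_eq_zero _
        · exact map_zero _
      rw [Derivation.leibniz, h1, th_phi e ρ κ b0 hb0, smul_zero, smul_zero, add_zero]
    rw [Theta_x, h0, map_zero, add_zero]
  · intro i
    have hcx : ∀ f, W.x f * W.d (X i) = W.d (X i) * W.x f - W.x (pderiv i f) := by
      intro f
      rw [W.d_mul_x]
      abel
    refine ⟨-∑ a, W.x (pderiv i (phi e ρ κ a)) * W.dO b0 a, ?_, ?_⟩
    · unfold Theta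
      rw [Finset.sum_mul, Finset.mul_sum, ← Finset.sum_neg_distrib, ← Finset.sum_add_distrib]
      refine Finset.sum_congr rfl fun a _ => ?_
      rw [mul_assoc, WMod.dO_d, ← mul_assoc, hcx, sub_mul, mul_assoc]
      abel
    · have h1 : ∀ a, Theta e ρ κ b0 W * (W.x (pderiv i (phi e ρ κ a)) * W.dO b0 a) =
          (W.x (pderiv i (phi e ρ κ a)) * W.dO b0 a) * Theta e ρ κ b0 W := by
        intro a
        have h2 : th e ρ κ b0 (pderiv i (phi e ρ κ a)) = 0 := by
          rw [th_apply]
          refine Finset.sum_eq_zero fun c _ => ?_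
          have h3 : pd e b0 c (pderiv i (phi e ρ κ a)) = 0 := by
            have h4 : pderiv i (phi e ρ κ a) = pd e i.1.1 i.1.2 (phi e ρ κ a) := by
              unfold pd
              rw [dif_pos i.2]
            rw [h4, pd_comm, pd_phi e ρ κ b0 c a (Or.inl hb0), map_zero]
          rw [h3, mul_zero]
        have h5 : Theta e ρ κ b0 W * W.dO b0 a = W.dO b0 a * Theta e ρ κ b0 W := by
          unfold Theta
          rw [Finset.sum_mul, Finset.mul_sum]
          refine Finset.sum_congr rfl fun c _ => ?_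
          rw [mul_assoc, W.dO_comm, ← mul_assoc, ← mul_assoc, W.dO_x,
            pd_phi e ρ κ b0 a c (Or.inl hb0), map_zero, add_zero]
        rw [← mul_assoc, Theta_x, h2, map_zero, add_zero, mul_assoc, h5, mul_assoc]
      rw [mul_neg, neg_mul, Finset.mul_sum, Finset.sum_mul]
      congr 1
      exact Finset.sum_congr rfl fun a _ => h1 a

end Pool.DM
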