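import Pool.Agent.Work.MP_c20ce7_neg.ND

set_option autoImplicit false

/-! Negative part, E: the square matrix `(z_S ; phi_S)`, the vector `hh` and the base identity. -/

open MvPolynomial

noncomputable section

namespace Pool.DM

variable {ι : Type} [Fintype ι] [DecidableEq ι] {R : Type} [Add R] [One R] [DecidableEq R]
  (e : ι → R) {r : ℕ} (ρ : Fin (r + 1) → ι) (κ : Fin r → ι) (t : R)

/-- The square matrix with the rows `z_S` and `phi_S`. -/
def matA (s : {b // e b = t + 1} ⊕ Unit → ι) :
    Matrix ({b // e b = t + 1} ⊕ Unit) ({b // e b = t + 1} ⊕ Unit) (MvPolynomial (Co e) ℂ) :=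
  Matrix.of (Sum.elim (fun b j => cx e b.1 (s j)) (fun _ j => phi e ρ κ (s j)))

variable (s : {b // e b = t + 1} ⊕ Unit → ι) (b0 : {b // e b = t + 1})

/-- The determinant of this matrix. -/
def dtA : MvPolynomial (Co e) ℂ := (matA e ρ κ t s).det

/-- The vector `hh` with `z hh = det * b0` and `phi hh = 0`. -/
def hh (a : ι) : MvPolynomial (Co e) ℂ :=
  ∑ j, if s j = a then (matA e ρ κ t s).adjugate j (Sum.inl b0) else 0

theorem sum_hh (v : ι → MvPolynomial (Co e) ℂ) :
    ∑ a, v a * hh e ρ κ t s b0 a =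
      ∑ j, v (s j) * (matA e ρ κ t s).adjugate j (Sum.inl b0) := by
  unfold hh
  simp only [Finset.mul_sum, mul_ite, mul_zero]
  rw [Finset.sum_comm]
  refine Finset.sum_congr rfl fun k _ => ?_
  rw [Finset.sum_ite_eq, if_pos (Finset.mem_univ _)]

theorem adj_row (i : {b // e b = t + 1} ⊕ Unit) :
    ∑ j, matA e ρ κ t s i j * (matA e ρ κ t s).adjugate j (Sum.inl b0) =
      if i = Sum.inl b0 then dtA e ρ κ t s else 0 := by
  have h := congrFun (congrFun (Matrix.mul_adjugate (matA e ρ κ t s)) i) (Sum.inl b0)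
  rw [Matrix.mul_apply] at h
  rw [h, Matrix.smul_apply, Matrix.one_apply, smul_eq_mul, mul_ite, mul_one, mul_zero]
  rfl

theorem phi_hh : ∑ a, phi e ρ κ a * hh e ρ κ t s b0 a = 0 := by
  rw [sum_hh]
  have h := adj_row e ρ κ t s b0 (Sum.inr ())
  rw [if_neg Sum.inr_ne_inl] at h
  exact h

variable (hs : ∀ j, e (s j) = t)

include hs in
theorem z_hh (c : ι) : ∑ a, cx e c a * hh e ρ κ t s b0 a =
    if c = b0.1 then dtA e ρ κ t s else 0 := by
  rw [sum_hh]
  by_cases hc : e c = t + 1
  · have h := adj_row e ρ κ t s b0 (Sum.inl ⟨c, hc⟩)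
    have h1 : (Sum.inl ⟨c, hc⟩ : {b // e b = t + 1} ⊕ Unit) = Sum.inl b0 ↔ c = b0.1 := by
      constructor
      · intro h2
        rw [← Sum.inl.inj h2]
      · intro h2
        exact congrArg Sum.inl (Subtype.ext h2)
    simp only [h1] at h
    exact h
  · rw [if_neg (fun h => hc (by rw [h]; exact b0.2))]
    refine Finset.sum_eq_zero fun j _ => ?_
    unfold cx
    rw [dif_neg (by rw [hs]; exact hc), zero_mul]

include hs in
theorem hh_ne (a : ι) (h : e a ≠ t) : hh e ρ κ t s b0 a = 0 := by
  unfold hh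
  refine Finset.sum_eq_zero fun j _ => ?_
  rw [if_neg]
  rintro rfl
  exact h (hs j)

variable (hb0 : ∀ k, ρ k ≠ b0.1)

include hb0 in
theorem th_adj (j : {b // e b = t + 1} ⊕ Unit) :
    th e ρ κ b0.1 ((matA e ρ κ t s).adjugate j (Sum.inl b0)) = 0 := by
  rw [Matrix.adjugate_apply]
  refine ker_det _ _ fun i k => ?_
  rw [Matrix.updateRow_apply]
  split
  · rw [Pi.single_apply]
    split
    · exact Derivation.map_one_eq_zero _
    · exact map_zero _
  · rename_i hi
    rcases i with b | u
    · have h1 : matA e ρ κ t s (Sum.inl b) k = cx e b.1 (s k) := rfl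
      rw [h1, th_apply]
      refine Finset.sum_eq_zero fun a _ => ?_
      rw [pd_cx, if_neg, mul_zero]
      rintro ⟨h2, _, _⟩
      exact hi (congrArg Sum.inl (Subtype.ext h2.symm))
    · have h1 : matA e ρ κ t s (Sum.inr u) k = phi e ρ κ (s k) := rfl
      rw [h1]
      exact th_phi e ρ κ b0.1 hb0 _

include hb0 in
theorem th_hh (a : ι) : th e ρ κ b0.1 (hh e ρ κ t s b0 a) = 0 := by
  unfold hh
  rw [map_sum]
  refine Finset.sum_eq_zero fun j _ => ?_
  split
  · exact th_adj e ρ κ t s b0 hb0 j
  · exact map_zero _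

include hb0 hs in
theorem th_dtA : th e ρ κ b0.1 (dtA e ρ κ t s) = 0 := by
  have h := adj_row e ρ κ t s b0 (Sum.inl b0)
  rw [if_pos rfl] at h
  rw [← h, map_sum]
  have h1 : ∀ j, th e ρ κ b0.1 (matA e ρ κ t s (Sum.inl b0) j *
      (matA e ρ κ t s).adjugate j (Sum.inl b0)) =
      matA e ρ κ t s (Sum.inr ()) j * (matA e ρ κ t s).adjugate j (Sum.inl b0) := by
    intro j
    rw [Derivation.leibniz, th_adj e ρ κ t s b0 hb0, smul_zero, zero_add, smul_eq_mul, mul_comm]
    congr 1
    have h2 : matA e ρ κ t s (Sum.inl b0) j = cx e b0.1 (s j) := rfl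
    have h3 : matA e ρ κ t s (Sum.inr ()) j = phi e ρ κ (s j) := rfl
    rw [h2, h3, th_apply, Finset.sum_eq_single (s j)]
    · rw [pd_cx, if_pos ⟨rfl, rfl, by rw [hs, b0.2]⟩, mul_one]
    · intro a _ ha
      rw [pd_cx, if_neg (fun h4 => ha h4.2.1), mul_zero]
    · intro h4
      exact absurd (Finset.mem_univ _) h4
  rw [Finset.sum_congr rfl fun j _ => h1 j]
  have h5 := adj_row e ρ κ t s b0 (Sum.inr ())
  rwa [if_neg Sum.inr_ne_inl] at h5

variable {L : Type} [AddCommGroup L] [Module ℂ L]

include hs in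
/-- The base identity. -/
theorem base_identity (W : WMod (Co e) L) (hρ : ∀ k, e (ρ k) = t) (w : L)
    (hw : ∀ c, t = e c + 1 → W.x (∑ b, cx e b c * phi e ρ κ b) w = 0) :
    ∑ a, ∑ b, W.x (hh e ρ κ t s b0 a * phi e ρ κ b) (W.G a b w) =
      - W.x (dtA e ρ κ t s) (Theta e ρ κ b0.1 W w) := by
  classical
  have hphi : ∀ b, e b ≠ t → phi e ρ κ b = 0 := by
    intro b hb
    unfold phi
    refine Finset.sum_eq_zero fun k _ => ?_
    rw [if_neg]
    rintro rfl
    exact hb (hρ k)
  have hG : ∀ a b, W.G a b w = ∑ c, W.x (cx e b c) (W.dO a c w) -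
      ∑ c, W.x (cx e c a) (W.dO c b w) := by
    intro a b
    unfold WMod.G
    rw [LinearMap.sub_apply, LinearMap.sum_apply, LinearMap.sum_apply]
    simp only [Module.End.mul_apply, W.xo_eq]
  simp only [hG, map_sub, map_sum, Finset.sum_sub_distrib]
  -- second sum
  have h2 : ∑ a, ∑ b, ∑ c, W.x (hh e ρ κ t s b0 a * phi e ρ κ b) (W.x (cx e c a) (W.dO c b w)) =
      W.x (dtA e ρ κ t s) (Theta e ρ κ b0.1 W w) := by
    have h3 : ∀ b, ∑ c, W.x (phi e ρ κ b * ∑ a, cx e c a * hh e ρ κ t s b0 a) (W.dO c b w) =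
        W.x (phi e ρ κ b * dtA e ρ κ t s) (W.dO b0.1 b w) := by
      intro b
      rw [Finset.sum_eq_single b0.1]
      · rw [z_hh e ρ κ t s b0 hs, if_pos rfl]
      · intro c _ hc
        rw [z_hh e ρ κ t s b0 hs, if_neg hc, mul_zero, map_zero]
        rfl
      · intro h; exact absurd (Finset.mem_univ _) h
    have h4 : W.x (dtA e ρ κ t s) (Theta e ρ κ b0.1 W w) =
        ∑ b, W.x (phi e ρ κ b * dtA e ρ κ t s) (W.dO b0.1 b w) := by
      unfold Theta
      rw [LinearMap.sum_apply, map_sum]
      refine Finset.sum_congr rfl fun b _ => ?_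
      rw [Module.End.mul_apply, ← Module.End.mul_apply, ← map_mul, mul_comm]
    rw [h4, Finset.sum_comm]
    refine Finset.sum_congr rfl fun b _ => ?_
    rw [← h3 b, Finset.sum_comm]
    refine Finset.sum_congr rfl fun c _ => ?_
    rw [Finset.mul_sum, map_sum, LinearMap.sum_apply]
    refine Finset.sum_congr rfl fun a _ => ?_
    rw [← Module.End.mul_apply, ← map_mul]
    congr 2
    ring
  -- first sum
  have h1 : ∑ a, ∑ b, ∑ c, W.x (hh e ρ κ t s b0 a * phi e ρ κ b) (W.x (cx e b c) (W.dO a c w)) =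
      0 := by
    have h3 : ∀ a c, ∑ b, W.x (hh e ρ κ t s b0 a * phi e ρ κ b) (W.x (cx e b c) (W.dO a c w)) =
        if t = e c + 1 ∧ ∀ j, κ j ≠ c then - W.x (phi e ρ κ a * hh e ρ κ t s b0 a) w else 0 := by
      intro a c
      have h4 : ∑ b, W.x (hh e ρ κ t s b0 a * phi e ρ κ b) (W.x (cx e b c) (W.dO a c w)) =
          W.x (hh e ρ κ t s b0 a) (W.x (∑ b, cx e b c * phi e ρ κ b) (W.dO a c w)) := by
        rw [map_sum, LinearMap.sum_apply, map_sum]
        refine Finset.sum_congr rfl fun b _ => ?_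
        have hm : ∀ (f g : MvPolynomial (Co e) ℂ) (v : L), W.x f (W.x g v) = W.x (f * g) v := by
          intro f g v
          rw [map_mul]
          rfl
        rw [hm, hm]
        congr 2
        ring
      rw [h4]
      by_cases hc : t = e c + 1
      · by_cases hk : ∀ j, κ j ≠ c
        · rw [if_pos ⟨hc, hk⟩]
          have h5 := LinearMap.congr_fun (W.dO_x a c (∑ b, cx e b c * phi e ρ κ b)) w
          rw [Module.End.mul_apply, hw c hc, map_zero, LinearMap.add_apply,
            Module.End.mul_apply] at h5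
          have h6 : pd e a c (∑ b, cx e b c * phi e ρ κ b) =
              if e a = e c + 1 then phi e ρ κ a else 0 := by
            rw [map_sum]
            have h7 : ∀ b, pd e a c (cx e b c * phi e ρ κ b) =
                if b = a then (if e a = e c + 1 then phi e ρ κ a else 0) else 0 := by
              intro b
              rw [Derivation.leibniz, pd_phi e ρ κ a c b (Or.inr hk), smul_zero, zero_add,
                smul_eq_mul, pd_cx]
              by_cases hb : b = a
              · subst hb
                by_cases h8 : e b = e c + 1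
                · simp [h8]
                · simp [h8]
              · rw [if_neg (fun h9 => hb h9.1.symm), if_neg hb, mul_zero]
            rw [Finset.sum_congr rfl fun b _ => h7 b, Finset.sum_ite_eq',
              if_pos (Finset.mem_univ _)]
          rw [h6] at h5
          have h7 : W.x (∑ b, cx e b c * phi e ρ κ b) (W.dO a c w) =
              - W.x (if e a = e c + 1 then phi e ρ κ a else 0) w :=
            (neg_eq_of_add_eq_zero_left h5.symm).symm
          rw [h7, map_neg, ← Module.End.mul_apply, ← map_mul]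
          by_cases h8 : e a = e c + 1
          · rw [if_pos h8, mul_comm]
          · rw [if_neg h8, hh_ne e ρ κ t s b0 hs a (fun h9 => h8 (by rw [h9, ← hc])), zero_mul,
              mul_zero]
        · rw [if_neg (fun h => hk h.2)]
          push Not at hk
          obtain ⟨j, rfl⟩ := hk
          have h5 : ∑ b, cx e b (κ j) * phi e ρ κ b = 0 := by
            rw [sum_phi]
            refine Matrix.det_zero_of_column_eq (i := 0) (j := j.succ) (Fin.succ_ne_zero j).symm ?_
            intro k
            rfl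
          rw [h5, map_zero, LinearMap.zero_apply, map_zero]
      · rw [if_neg (fun h => hc h.1)]
        have h5 : ∑ b, cx e b c * phi e ρ κ b = 0 := by
          refine Finset.sum_eq_zero fun b _ => ?_
          by_cases hb : e b = t
          · unfold cx
            rw [dif_neg (by rw [hb]; exact hc), zero_mul]
          · rw [hphi b hb, mul_zero]
        rw [h5, map_zero, LinearMap.zero_apply, map_zero]
    have h4 : ∑ a, ∑ b, ∑ c, W.x (hh e ρ κ t s b0 a * phi e ρ κ b)
        (W.x (cx e b c) (W.dO a c w)) = ∑ c, ∑ a, ∑ b,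
        W.x (hh e ρ κ t s b0 a * phi e ρ κ b) (W.x (cx e b c) (W.dO a c w)) := by
      rw [Finset.sum_comm]
      rw [Finset.sum_congr rfl fun b _ => Finset.sum_comm, Finset.sum_comm]
      exact Finset.sum_congr rfl fun c _ => Finset.sum_comm
    rw [h4]
    refine Finset.sum_eq_zero fun c _ => ?_
    rw [Finset.sum_congr rfl fun a _ => h3 a c]
    by_cases h5 : t = e c + 1 ∧ ∀ j, κ j ≠ c
    · simp only [if_pos h5]
      rw [Finset.sum_neg_distrib, ← LinearMap.sum_apply, ← map_sum, phi_hh, map_zero,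
        LinearMap.zero_apply, neg_zero]
    · simp only [if_neg h5, Finset.sum_const_zero]
  rw [h1, h2, zero_sub]

end Pool.DM
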