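import Pool.Agent.Work.MP_c20ce7_neg.NE

set_option autoImplicit false

/-! Negative part, F: `Theta` is locally nilpotent; the characteristic variety. -/

open MvPolynomial

noncomputable section

namespace Pool.DM

variable {ι : Type} [Fintype ι] [DecidableEq ι] {R : Type} [Add R] [One R] [DecidableEq R]
  (e : ι → R) {r : ℕ} (ρ : Fin (r + 1) → ι) (κ : Fin r → ι) (t : R)
  (s : {b // e b = t + 1} ⊕ Unit → ι) (b0 : {b // e b = t + 1})
  {L : Type} [AddCommGroup L] [Module ℂ L]

/-- The vector fields of `gl(V_t)` are jointly locally finite. -/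
theorem gl_fd (W : WMod (Co e) L) (hE : W.Equivariant) (w : L) :
    ∃ M : Submodule ℂ L, Module.Finite ℂ M ∧ w ∈ M ∧
      ∀ a b, e a = t → e b = t → ∀ v ∈ M, W.G a b v ∈ M := by
  classical
  obtain ⟨M, hM, hw, h⟩ := exists_fd (fun p : {a // e a = t} × {a // e a = t} => W.G p.1.1 p.2.1)
    (by
      rintro ⟨a, b⟩ ⟨c, d⟩
      rw [W.G_G (by rw [a.2, b.2])]
      refine Submodule.sub_mem _ ?_ ?_
      · split
        · exact Submodule.subset_span ⟨(c, b), rfl⟩
        · exact Submodule.zero_mem _
      · split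
        · exact Submodule.subset_span ⟨(a, d), rfl⟩
        · exact Submodule.zero_mem _)
    (by
      rintro ⟨a, b⟩
      by_cases hab : a.1 = b.1
      · simp only [hab]
        exact LocFin.of_diag (hE.diag b.1)
      · exact LocFin.of_nil (hE.nil a.1 b.1 hab (by rw [a.2, b.2])))
    w
  exact ⟨M, hM, hw, fun a b ha hb v hv => h (⟨a, ha⟩, ⟨b, hb⟩) v hv⟩

/-- The vectors killed by the ideal of the support are stable under the vector fields. -/
theorem killed_G (W : WMod (Co e) L) (hE : W.Equivariant) (Z : Set (Co e → ℂ)) (hC : W.SuppEq Z)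
    {a b : ι} (hab : e a = e b) {v : L} (hv : v ∈ W.killed Z) : W.G a b v ∈ W.killed Z := by
  intro f hf
  have hT : LocFin (W.G a b) := by
    by_cases h : a = b
    · subst h
      exact LocFin.of_diag (hE.diag a)
    · exact LocFin.of_nil (hE.nil a b h hab)
  have h1 : LocNil (W.x (Gd e a b f)) :=
    locNil_deriv W _ (Gd e a b) hT (fun g => W.G_x a b g) ((hC f).1 hf)
  have h2 := LinearMap.congr_fun (W.G_x a b f) v
  rw [LinearMap.add_apply, Module.End.mul_apply, Module.End.mul_apply, hv f hf, map_zero,
    hv _ ((hC _).2 h1), add_zero] at h2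
  exact h2.symm

/-- `Theta` is locally nilpotent. -/
theorem Theta_nil (W : WMod (Co e) L) (hS : W.Simple) (hE : W.Equivariant) (Z : Set (Co e → ℂ))
    (hC : W.SuppEq Z) (hρ : ∀ k, e (ρ k) = t) (hs : ∀ j, e (s j) = t) (hb0 : ∀ k, ρ k ≠ b0.1)
    (hmin : ∀ x ∈ Z, ∀ c, t = e c + 1 →
      eval x (minM ρ κ (fun b => cx e b c) (cx e)).det = 0)
    (hdet : ∃ x ∈ Z, eval x (dtA e ρ κ t s) ≠ 0) : LocNil (Theta e ρ κ b0.1 W) := by
  classical
  obtain ⟨u, hu⟩ : ∃ u : L, u ≠ 0 := by
    by_contra h
    push Not at h
    exact hS.2.1 ((Submodule.eq_bot_iff _).2 fun x _ => h x)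
  obtain ⟨w, hw, hw0⟩ := exists_killed W Z hC hu
  obtain ⟨M0, hM0, hwM0, hst0⟩ := gl_fd e t W hE w
  let M : Submodule ℂ L := M0 ⊓ W.killed Z
  have : Module.Finite ℂ M := Submodule.finiteDimensional_of_le (inf_le_left : M ≤ M0)
  have hwM : w ∈ M := ⟨hwM0, hw⟩
  have hst : ∀ a b, e a = t → e b = t → ∀ v ∈ M, W.G a b v ∈ M := fun a b ha hb v hv =>
    ⟨hst0 a b ha hb v hv.1, killed_G e W hE Z hC (by rw [ha, hb]) hv.2⟩
  -- the functions of the base identity
  have hphi : ∀ b, e b ≠ t → phi e ρ κ b = 0 := by
    intro b hb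
    unfold phi
    refine Finset.sum_eq_zero fun k _ => ?_
    rw [if_neg]
    rintro rfl
    exact hb (hρ k)
  have hbase : ∀ v ∈ M, W.x (dtA e ρ κ t s) (Theta e ρ κ b0.1 W v) =
      - ∑ a, ∑ b, W.x (hh e ρ κ t s b0 a * phi e ρ κ b) (W.G a b v) := by
    intro v hv
    rw [base_identity e ρ κ t s b0 hs W hρ v, neg_neg]
    intro c hc
    refine hv.2 _ fun x hx => ?_
    have h1 := hmin x hx c hc
    rwa [← sum_phi] at h1
  -- matrices
  set q := Module.finrank ℂ M with hq
  let bM : Module.Basis (Fin q) ℂ M := Module.finBasis ℂ M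
  let Tab : ι → ι → Module.End ℂ M := fun a b =>
    if h : e a = t ∧ e b = t then (W.G a b).restrict (hst a b h.1 h.2) else 0
  let Γ : ι → ι → Matrix (Fin q) (Fin q) ℂ := fun a b => LinearMap.toMatrix bM bM (Tab a b)
  have hΓ : ∀ a b j, e a = t → e b = t →
      W.G a b (bM j : L) = ∑ l, Γ a b l j • (bM l : L) := by
    intro a b j ha hb
    have h1 : Tab a b (bM j) = ∑ l, Γ a b l j • bM l := by
      have := bM.sum_repr (Tab a b (bM j))
      rw [← this]
      refine Finset.sum_congr rfl fun l _ => ?_
      have h3 : Γ a b l j = bM.repr (Tab a b (bM j)) l := LinearMap.toMatrix_apply _ _ _ _ _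
      rw [h3]
    have h2 := congrArg (Subtype.val) h1
    rw [show (Tab a b (bM j) : L) = W.G a b (bM j : L) from by
      simp only [Tab, dif_pos (And.intro ha hb)]
      rfl] at h2
    rw [h2]
    simp
  let NN : Matrix (Fin q) (Fin q) (MvPolynomial (Co e) ℂ) :=
    ∑ a, ∑ b, (hh e ρ κ t s b0 a * phi e ρ κ b) • (Γ a b).map C
  have hNN : ∀ l j, NN l j = ∑ a, ∑ b, hh e ρ κ t s b0 a * phi e ρ κ b * C (Γ a b l j) := by
    intro l j
    simp only [NN, Matrix.sum_apply, Matrix.smul_apply, Matrix.map_apply, smul_eq_mul]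
  have hNpow : NN ^ q = 0 := by
    have h1 : ∀ x : Co e → ℂ, (NN.map (eval x)) ^ q = 0 := by
      intro x
      set h : ι → ℂ := fun a => eval x (hh e ρ κ t s b0 a) with hh'
      set f : ι → ℂ := fun a => eval x (phi e ρ κ a) with hf'
      have hN : NN.map (eval x) = ∑ a, ∑ b, (h a * f b) • Γ a b := by
        ext l j
        rw [Matrix.map_apply, hNN, map_sum, Matrix.sum_apply]
        refine Finset.sum_congr rfl fun a _ => ?_
        rw [map_sum, Matrix.sum_apply]
        refine Finset.sum_congr rfl fun b _ => ?_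
        rw [map_mul, map_mul, eval_C, Matrix.smul_apply, smul_eq_mul]
      have hfh : ∑ a, f a * h a = 0 := by
        have := congrArg (eval x) (phi_hh e ρ κ t s b0)
        rw [map_sum, map_zero] at this
        simpa using this
      by_cases h0 : ∀ a, h a = 0
      · have : NN.map (eval x) = 0 := by
          rw [hN]
          refine Finset.sum_eq_zero fun a _ => Finset.sum_eq_zero fun b _ => ?_
          rw [h0 a, zero_mul, zero_smul]
        rw [this]
        rcases Nat.eq_zero_or_pos q with hq0 | hq0
        · have : IsEmpty (Fin q) := by rw [hq0]; infer_instance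
          exact Subsingleton.elim _ _
        · exact zero_pow (by omega)
      · push Not at h0
        obtain ⟨a0, ha0⟩ := h0
        have hea0 : e a0 = t := by
          by_contra hne
          exact ha0 (by rw [hh']; simp only; rw [hh_ne e ρ κ t s b0 hs a0 hne, map_zero])
        have het : ∀ a, e a ≠ t → h a = 0 := fun a hne => by
          rw [hh']; simp only; rw [hh_ne e ρ κ t s b0 hs a hne, map_zero]
        have hft : ∀ a, e a ≠ t → f a = 0 := fun a hne => by
          rw [hf']; simp only; rw [hphi a hne, map_zero]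
        have hcom : ∀ a b c d, e a = t → e b = t → e c = t → e d = t →
            Γ a b * Γ c d - Γ c d * Γ a b =
              (if a = d then Γ c b else 0) - (if b = c then Γ a d else 0) := by
          intro a b c d ha hb hc hd
          have h2 : Tab a b * Tab c d - Tab c d * Tab a b =
              (if a = d then Tab c b else 0) - (if b = c then Tab a d else 0) := by
            have hT : ∀ a b, e a = t → e b = t → ∀ v : M, ((Tab a b v : M) : L) = W.G a b (v : L) := by
              intro a b ha hb v
              simp only [Tab, dif_pos (And.intro ha hb)]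
              rfl
            refine LinearMap.ext fun v => Subtype.ext ?_
            have h3 := LinearMap.congr_fun (W.G_G (c := c) (d := d) (show e a = e b by rw [ha, hb]))
              (v : L)
            rw [LinearMap.sub_apply, LinearMap.sub_apply, Module.End.mul_apply,
              Module.End.mul_apply] at h3
            rw [LinearMap.sub_apply, LinearMap.sub_apply, Module.End.mul_apply,
              Module.End.mul_apply, Submodule.coe_sub, Submodule.coe_sub, hT a b ha hb,
              hT c d hc hd, hT c d hc hd, hT a b ha hb, h3]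
            congr 1
            · split
              · rw [hT c b hc hb]
              · simp
            · split
              · rw [hT a d ha hd]
              · simp
          have h4 := congrArg (LinearMap.toMatrix bM bM) h2
          rw [map_sub, map_sub, Module.End.mul_eq_comp, Module.End.mul_eq_comp,
            LinearMap.toMatrix_comp bM bM bM, LinearMap.toMatrix_comp bM bM bM] at h4
          rw [show Γ a b * Γ c d - Γ c d * Γ a b = _ from h4]
          congr 1
          · split
            · rfl
            · simp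
          · split
            · rfl
            · simp
        rw [hN]
        refine nilp_of_comm (∑ a, (h a / h a0) • Γ a a0) _ (-1) (by norm_num) ?_
        have h5 : (∑ a, (h a / h a0) • Γ a a0) * (∑ c, ∑ d, (h c * f d) • Γ c d) -
            (∑ c, ∑ d, (h c * f d) • Γ c d) * (∑ a, (h a / h a0) • Γ a a0) =
            ∑ a, ∑ c, ∑ d, ((h a / h a0) * (h c * f d)) •
              ((if a = d then Γ c a0 else 0) - (if a0 = c then Γ a d else 0)) := by
          rw [Finset.sum_mul, Finset.mul_sum, ← Finset.sum_sub_distrib]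
          refine Finset.sum_congr rfl fun a _ => ?_
          rw [Finset.mul_sum, Finset.sum_mul, ← Finset.sum_sub_distrib]
          refine Finset.sum_congr rfl fun c _ => ?_
          rw [Finset.mul_sum, Finset.sum_mul, ← Finset.sum_sub_distrib]
          refine Finset.sum_congr rfl fun d _ => ?_
          rw [smul_mul_smul_comm, smul_mul_smul_comm, mul_comm (h c * f d) (h a / h a0), ← smul_sub]
          by_cases ha : e a = t
          · by_cases hc : e c = t
            · by_cases hd : e d = t
              · rw [hcom a a0 c d ha hea0 hc hd]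
              · rw [hft d hd, mul_zero, mul_zero, zero_smul, zero_smul]
            · rw [het c hc, zero_mul, mul_zero, zero_smul, zero_smul]
          · rw [het a ha, zero_div, zero_mul, zero_smul, zero_smul]
        rw [h5]
        simp only [smul_sub, Finset.sum_sub_distrib, smul_ite, smul_zero]
        have h6 : ∑ a, ∑ c, ∑ d, (if a = d then ((h a / h a0) * (h c * f d)) • Γ c a0 else 0) = 0 := by
          have h7 : ∀ a c, ∑ d, (if a = d then ((h a / h a0) * (h c * f d)) • Γ c a0 else 0) =
              (f a * h a) • ((h c / h a0) • Γ c a0) := by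
            intro a c
            rw [Finset.sum_ite_eq, if_pos (Finset.mem_univ _), smul_smul]
            congr 1
            ring
          simp only [h7, ← Finset.smul_sum]
          rw [← Finset.sum_smul, hfh, zero_smul]
        have h8 : ∑ a, ∑ c, ∑ d, (if a0 = c then ((h a / h a0) * (h c * f d)) • Γ a d else 0) =
            ∑ a, ∑ d, (h a * f d) • Γ a d := by
          refine Finset.sum_congr rfl fun a _ => ?_
          rw [Finset.sum_comm]
          refine Finset.sum_congr rfl fun d _ => ?_
          rw [Finset.sum_ite_eq, if_pos (Finset.mem_univ _)]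
          congr 1
          field_simp
        rw [h6, h8, zero_sub, neg_smul, one_smul]
    refine Matrix.ext fun l j => ?_
    have h4 : (NN ^ q) l j = (0 : MvPolynomial (Co e) ℂ) := by
      apply MvPolynomial.funext
      intro x
      have h2 := h1 x
      have h3 : (NN ^ q).map (eval x) = 0 := by
        rw [Matrix.map_pow, h2]
      rw [map_zero]
      exact congrFun (congrFun h3 l) j
    exact h4
  have hthN : ∀ k l j, th e ρ κ b0.1 ((NN ^ k) l j) = 0 := by
    have h0 : ∀ l j, th e ρ κ b0.1 (NN l j) = 0 := by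
      intro l j
      rw [hNN, map_sum]
      refine Finset.sum_eq_zero fun a _ => ?_
      rw [map_sum]
      refine Finset.sum_eq_zero fun b _ => ?_
      rw [Derivation.leibniz, Derivation.leibniz, th_hh e ρ κ t s b0 hb0 a,
        th_phi e ρ κ b0.1 hb0 b]
      have : th e ρ κ b0.1 (C (Γ a b l j)) = 0 := Derivation.map_algebraMap _ _
      rw [this]
      simp
    intro k
    induction k with
    | zero =>
      intro l j
      rw [pow_zero, Matrix.one_apply]
      split
      · exact Derivation.map_one_eq_zero _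
      · exact map_zero _
    | succ k ih =>
      intro l j
      rw [pow_succ, Matrix.mul_apply, map_sum]
      refine Finset.sum_eq_zero fun m _ => ?_
      rw [Derivation.leibniz, ih, h0, smul_zero, smul_zero, add_zero]
  have hcommf : ∀ f, th e ρ κ b0.1 f = 0 → ∀ v, Theta e ρ κ b0.1 W (W.x f v) =
      W.x f (Theta e ρ κ b0.1 W v) := by
    intro f hf v
    have := LinearMap.congr_fun (Theta_x e ρ κ b0.1 W f) v
    rw [hf, map_zero, add_zero] at this
    exact this
  have hxx : ∀ (f g : MvPolynomial (Co e) ℂ) (v : L), W.x f (W.x g v) = W.x (f * g) v := by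
    intro f g v
    rw [map_mul]
    rfl
  have hstep : ∀ m, W.x (dtA e ρ κ t s) (Theta e ρ κ b0.1 W (bM m : L)) =
      - ∑ l, W.x (NN l m) (bM l : L) := by
    intro m
    rw [hbase _ (bM m).2]
    congr 1
    have h1 : ∀ a b, W.x (hh e ρ κ t s b0 a * phi e ρ κ b) (W.G a b (bM m : L)) =
        ∑ l, W.x (hh e ρ κ t s b0 a * phi e ρ κ b * C (Γ a b l m)) (bM l : L) := by
      intro a b
      by_cases ha : e a = t
      · by_cases hb : e b = t
        · rw [hΓ a b m ha hb, map_sum]
          refine Finset.sum_congr rfl fun l _ => ?_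
          rw [map_smul, mul_comm _ (C (Γ a b l m)), ← smul_eq_C_mul, map_smul,
            LinearMap.smul_apply]
        · rw [hphi b hb]; simp
      · rw [hh_ne e ρ κ t s b0 hs a ha]; simp
    simp only [h1]
    have h2 : ∀ l, W.x (NN l m) (bM l : L) =
        ∑ a, ∑ b, W.x (hh e ρ κ t s b0 a * phi e ρ κ b * C (Γ a b l m)) (bM l : L) := by
      intro l
      rw [hNN, map_sum, LinearMap.sum_apply]
      refine Finset.sum_congr rfl fun a _ => ?_
      rw [map_sum, LinearMap.sum_apply]
    simp only [h2]
    rw [Finset.sum_comm]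
    rw [Finset.sum_comm]
    have h3 : ∀ a, ∑ b, ∑ l, W.x (hh e ρ κ t s b0 a * phi e ρ κ b * C (Γ a b l m)) (bM l : L) =
        ∑ l, ∑ b, W.x (hh e ρ κ t s b0 a * phi e ρ κ b * C (Γ a b l m)) (bM l : L) :=
      fun a => Finset.sum_comm
    rw [Finset.sum_congr rfl fun a _ => h3 a, Finset.sum_comm]
  have hpow : ∀ k j, W.x (dtA e ρ κ t s ^ k) ((Theta e ρ κ b0.1 W ^ k) (bM j : L)) =
      (-1 : ℂ) ^ k • ∑ l, W.x ((NN ^ k) l j) (bM l : L) := by
    intro k
    induction k with
    | zero =>
      intro j
      have h1 : ∀ l, W.x (((NN ^ 0) l j)) (bM l : L) = if l = j then (bM l : L) else 0 := by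
        intro l
        rw [pow_zero, Matrix.one_apply]
        split
        · rw [map_one]; rfl
        · rw [map_zero]; rfl
      rw [pow_zero, pow_zero, pow_zero, map_one, one_smul, Finset.sum_congr rfl fun l _ => h1 l,
        Finset.sum_ite_eq', if_pos (Finset.mem_univ _)]
      rfl
    | succ k ih =>
      intro j
      have hthp : th e ρ κ b0.1 (dtA e ρ κ t s ^ k) = 0 := by
        rw [Derivation.leibniz_pow, th_dtA e ρ κ t s b0 hs hb0, smul_zero, smul_zero]
      rw [pow_succ' (Theta e ρ κ b0.1 W), Module.End.mul_apply, pow_succ', ← hxx,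
        ← hcommf _ hthp, ih j, map_smul, map_smul, map_sum, map_sum]
      have h1 : ∀ l, W.x (dtA e ρ κ t s) (Theta e ρ κ b0.1 W (W.x ((NN ^ k) l j) (bM l : L))) =
          - ∑ l', W.x (NN l' l * (NN ^ k) l j) (bM l' : L) := by
        intro l
        rw [hcommf _ (hthN k l j), hxx, mul_comm, ← hxx, hstep, map_neg, map_sum]
        congr 1
        refine Finset.sum_congr rfl fun l' _ => ?_
        rw [hxx, mul_comm]
      rw [Finset.sum_congr rfl fun l _ => h1 l, Finset.sum_neg_distrib, Finset.sum_comm]
      have h2 : ∀ l', W.x ((NN ^ (k + 1)) l' j) (bM l' : L) =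
          ∑ l, W.x (NN l' l * (NN ^ k) l j) (bM l' : L) := by
        intro l'
        rw [pow_succ', Matrix.mul_apply, map_sum, LinearMap.sum_apply]
      rw [Finset.sum_congr rfl fun l _ => h2 l, pow_succ, mul_smul, neg_smul, one_smul]
  have hinj : Function.Injective (W.x (dtA e ρ κ t s)) := by
    rcases W.nilp_or_inj hS (dtA e ρ κ t s) with h | h
    · exfalso
      obtain ⟨x, hx, hne⟩ := hdet
      exact hne ((hC _).2 ((locNil_pow W _).2 h) x hx)
    · exact h
  have hkill : ∀ j, (Theta e ρ κ b0.1 W ^ q) (bM j : L) = 0 := by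
    intro j
    have h1 := hpow q j
    rw [hNpow] at h1
    have h2 : (-1 : ℂ) ^ q • ∑ l, W.x ((0 : Matrix (Fin q) (Fin q) (MvPolynomial (Co e) ℂ)) l j)
        (bM l : L) = 0 := by
      rw [Finset.sum_eq_zero, smul_zero]
      intro l _
      rw [Matrix.zero_apply, map_zero]
      rfl
    rw [h2] at h1
    exact W.x_pow_inj hinj q (by rw [h1, map_zero])
  have hwk : (Theta e ρ κ b0.1 W ^ q) w = 0 := by
    have h1 := bM.sum_repr ⟨w, hwM⟩
    have h2 : w = ∑ j, (bM.repr ⟨w, hwM⟩ j) • (bM j : L) := by
      have := congrArg Subtype.val h1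
      rw [Submodule.coe_sum] at this
      exact this.symm
    rw [h2, map_sum]
    refine Finset.sum_eq_zero fun j _ => ?_
    rw [map_smul, hkill j, smul_zero]
  exact Theta_nil_of_one e ρ κ b0.1 hb0 W hS hw0 hwk

/-- The symbol of `Theta`. -/
def symT : MvPolynomial (Co e ⊕ Co e) ℂ :=
  ∑ a, rename Sum.inl (phi e ρ κ a) * rename Sum.inr (cx e b0.1 a)

theorem WMod.d_cx (W : WMod (Co e) L) (a b : ι) : W.d (cx e a b) = W.dO a b := by
  unfold WMod.dO cx
  split
  · rfl
  · rw [map_zero]

/-- Left multiplication by a function. -/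
theorem WMod.xf_mul_nf {σ : Type} [Fintype σ] [DecidableEq σ] (W : WMod σ L) (f : MvPolynomial σ ℂ)
    (p : MvPolynomial (σ ⊕ σ) ℂ) : W.x f * W.nf p = W.nf (rename Sum.inl f * p) := by
  induction f using MvPolynomial.induction_on generalizing p with
  | C a => rw [W.x_C, rename_C, ← smul_eq_C_mul, map_smul, smul_mul_assoc, one_mul]
  | add f g hf hg => rw [map_add, add_mul, hf, hg, map_add (rename Sum.inl), add_mul, map_add]
  | mul_X f i hf =>
    rw [map_mul, mul_assoc, W.x_mul_nf, hf, map_mul (rename Sum.inl) f (X i), rename_X, mul_assoc]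

theorem nf_symT_pow (W : WMod (Co e) L) (hb0 : ∀ k, ρ k ≠ b0.1) (k : ℕ) :
    W.nf (symT e ρ κ t b0 ^ k) = Theta e ρ κ b0.1 W ^ k := by
  have hren : ∀ (i : Co e) (f : MvPolynomial (Co e) ℂ),
      pderiv (Sum.inl i) (rename Sum.inr f : MvPolynomial (Co e ⊕ Co e) ℂ) = 0 := by
    intro i f
    induction f using MvPolynomial.induction_on with
    | C a => simp
    | add p q hp hq => simp [hp, hq]
    | mul_X p j hp => simp [hp, Derivation.leibniz]
  have hder : ∀ (i : Co e), i.1.1 = b0.1 → pderiv (Sum.inl i) (symT e ρ κ t b0) = 0 := by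
    intro i hi
    unfold symT
    rw [map_sum]
    refine Finset.sum_eq_zero fun a _ => ?_
    rw [Derivation.leibniz, hren, pderiv_rename Sum.inl_injective]
    have h4 : pderiv i (phi e ρ κ a) = pd e i.1.1 i.1.2 (phi e ρ κ a) := by
      unfold pd
      rw [dif_pos i.2]
    rw [h4, pd_phi e ρ κ _ _ _ (Or.inl fun k => by rw [hi]; exact hb0 k), map_zero, smul_zero,
      smul_zero, add_zero]
  induction k with
  | zero => rw [pow_zero, pow_zero, W.nf_one]
  | succ k ih =>
    rw [pow_succ' (Theta e ρ κ b0.1 W), ← ih, pow_succ']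
    unfold Theta
    rw [Finset.sum_mul]
    nth_rewrite 1 [symT]
    rw [Finset.sum_mul, map_sum]
    refine Finset.sum_congr rfl fun a _ => ?_
    rw [mul_assoc, mul_assoc]
    have h1 : W.dO b0.1 a * W.nf (symT e ρ κ t b0 ^ k) =
        W.nf (rename Sum.inr (cx e b0.1 a) * symT e ρ κ t b0 ^ k) := by
      unfold WMod.dO cx
      split
      · rename_i h
        rw [W.d_mul_nf, rename_X]
        have h2 : pderiv (Sum.inl (⟨(b0.1, a), h⟩ : Co e)) (symT e ρ κ t b0 ^ k) = 0 := by
          rw [Derivation.leibniz_pow, hder _ rfl, smul_zero, smul_zero]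
        rw [h2, add_zero]
      · rw [map_zero, zero_mul, zero_mul, map_zero]
    rw [h1, W.xf_mul_nf]

omit [DecidableEq R] in
theorem wh_inl {σ : Type} [Fintype σ] (f : MvPolynomial σ ℂ) :
    IsWeightedHomogeneous (wt σ) (rename Sum.inl f : MvPolynomial (σ ⊕ σ) ℂ) 0 := by
  induction f using MvPolynomial.induction_on with
  | C a => rw [rename_C]; exact isWeightedHomogeneous_C _ _
  | add p q hp hq => rw [map_add]; exact hp.add hq
  | mul_X p j hp =>
    rw [map_mul, rename_X]
    have := hp.mul (isWeightedHomogeneous_X ℂ (wt σ) (Sum.inl j))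
    simpa [wt] using this

theorem symT_hom (k : ℕ) :
    IsWeightedHomogeneous (wt (Co e)) (symT e ρ κ t b0 ^ k) k := by
  have h1 : IsWeightedHomogeneous (wt (Co e)) (symT e ρ κ t b0) 1 := by
    unfold symT
    refine IsWeightedHomogeneous.sum _ _ _ fun a _ => ?_
    have h2 : IsWeightedHomogeneous (wt (Co e))
        (rename Sum.inr (cx e b0.1 a) : MvPolynomial (Co e ⊕ Co e) ℂ) 1 := by
      unfold cx
      split
      · rw [rename_X]
        exact isWeightedHomogeneous_X ℂ (wt (Co e)) _
      · rw [map_zero]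
        exact isWeightedHomogeneous_zero _ _ _
    have h3 := (wh_inl (phi e ρ κ a)).mul h2
    rwa [zero_add] at h3
  have := h1.pow k
  simpa using this

theorem eval_symT (x ξ : Co e → ℂ) :
    eval (Sum.elim x ξ) (symT e ρ κ t b0) =
      (minM ρ κ (fun a => ymat e ξ a b0.1) fun a b => mat e x a b).det := by
  have hx : ∀ a b, eval x (cx e a b) = mat e x a b := by
    intro a b
    unfold cx mat
    split
    · rw [eval_X]
    · rw [map_zero]
  have hξ : ∀ a b, eval ξ (cx e a b) = ymat e ξ b a := by
    intro a b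
    unfold cx ymat
    split
    · rw [eval_X]
    · rw [map_zero]
  unfold symT
  rw [map_sum]
  have h1 : ∀ a, eval (Sum.elim x ξ) (rename Sum.inl (phi e ρ κ a) *
      rename Sum.inr (cx e b0.1 a)) = ymat e ξ a b0.1 * eval x (phi e ρ κ a) := by
    intro a
    rw [map_mul, eval_rename, eval_rename, Sum.elim_comp_inl, Sum.elim_comp_inr, hξ, mul_comm]
  rw [Finset.sum_congr rfl fun a _ => h1 a, det_minM]
  unfold phi
  simp only [map_sum, Finset.mul_sum]
  rw [Finset.sum_comm]
  refine Finset.sum_congr rfl fun k _ => ?_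
  have h2 : ∀ a, ymat e ξ a b0.1 * eval x (if ρ k = a then cofK e ρ κ k else 0) =
      if ρ k = a then ymat e ξ (ρ k) b0.1 * eval x (cofK e ρ κ k) else 0 := by
    intro a
    split
    · rename_i h; rw [h]
    · rw [map_zero, mul_zero]
  rw [Finset.sum_congr rfl fun a _ => h2 a, Finset.sum_ite_eq, if_pos (Finset.mem_univ _)]
  congr 1
  unfold cofK
  rw [map_mul, map_pow, map_neg, map_one, RingHom.map_det]
  congr 2
  ext i j
  simp [hx]

/-- **NEG.** -/
theorem neg_part (W : WMod (Co e) L) (hS : W.Simple) (hE : W.Equivariant) (Z : Set (Co e → ℂ))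
    (hC : W.SuppEq Z) (hρ : ∀ k, e (ρ k) = t) (hs : ∀ j, e (s j) = t) (hb0 : ∀ k, ρ k ≠ b0.1)
    (hmin : ∀ x ∈ Z, ∀ c, t = e c + 1 → (minM ρ κ (fun b => mat e x b c) fun a b => mat e x a b).det = 0)
    (hdet : ∃ x ∈ Z, eval x (dtA e ρ κ t s) ≠ 0) (x ξ : Co e → ℂ) (h : W.InCh x ξ) :
    (minM ρ κ (fun a => ymat e ξ a b0.1) fun a b => mat e x a b).det = 0 := by
  have hx : ∀ (x : Co e → ℂ) a b, eval x (cx e a b) = mat e x a b := by
    intro x a b
    unfold cx mat
    split
    · rw [eval_X]
    · rw [map_zero]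
  have hmin' : ∀ x ∈ Z, ∀ c, t = e c + 1 →
      eval x (minM ρ κ (fun b => cx e b c) (cx e)).det = 0 := by
    intro x hxZ c hc
    have h1 := hmin x hxZ c hc
    rw [det_minM] at h1 ⊢
    rw [map_sum]
    rw [← h1]
    refine Finset.sum_congr rfl fun k _ => ?_
    rw [map_mul, map_mul, map_pow, map_neg, map_one, RingHom.map_det, hx]
    congr 3
    ext i j
    simp [hx]
  have hnil := Theta_nil e ρ κ t s b0 W hS hE Z hC hρ hs hb0 hmin' hdet
  obtain ⟨u, hu⟩ : ∃ u : L, u ≠ 0 := by
    by_contra h
    push Not at h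
    exact hS.2.1 ((Submodule.eq_bot_iff _).2 fun x _ => h x)
  obtain ⟨k, hk⟩ := hnil u
  have hh := symT_hom e ρ κ t b0 k
  have h2 := h u hu k (symT e ρ κ t b0 ^ k) ?_ (by rw [nf_symT_pow e ρ κ t b0 W hb0]; exact hk)
  · rw [hh.weightedHomogeneousComponent_same, map_pow] at h2
    rw [← eval_symT]
    by_contra hne
    exact pow_ne_zero k hne h2
  · exact Finset.sup_le fun d hd => (hh (mem_support_iff.1 hd)).le

end Pool.DM
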